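import Pool.Agent.Lib_helper62.AP.Defs

/-! # All primes: Newton's recursion -/

set_option autoImplicit false

namespace Pool.Agent.AP

open NumberField Polynomial

/-- BLOCK N1. A family satisfies Newton's recursion (and `fpoly` is its polynomial). -/
theorem block_N1 {C : Type} [CommRing C] {d : ℕ} (α : Fin d → C) :
    ∃ E : ℕ → C, (∀ J, NRec (fun r => ∑ i, α i ^ r) E J) ∧ fpoly E d = ∏ i, (X - Polynomial.C (α i)) := by
  classical
  have haev : ∀ j, MvPolynomial.aeval α (MvPolynomial.esymm (Fin d) ℤ j) =
      (Finset.univ.val.map α).esymm j := fun j => MvPolynomial.aeval_esymm_eq_multiset_esymm _ _ _ _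
  refine ⟨fun j => (-1) ^ j * (Finset.univ.val.map α).esymm j, ?_, ?_⟩
  · intro J
    refine ⟨?_, ?_⟩
    · beta_reduce
      simp [Multiset.esymm]
    · intro j hj _
      beta_reduce
      have h1 := congrArg (MvPolynomial.aeval α) (MvPolynomial.mul_esymm_eq_sum (Fin d) ℤ j)
      rw [map_mul, map_mul, map_sum, haev, map_natCast, map_pow, map_neg, map_one] at h1
      have h2 : ∑ x ∈ Finset.HasAntidiagonal.antidiagonal j with x.1 < j,
          MvPolynomial.aeval α ((-1) ^ x.1 * MvPolynomial.esymm (Fin d) ℤ x.1 *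
            MvPolynomial.psum (Fin d) ℤ x.2) =
          ∑ i ∈ Finset.range j, (∑ l, α l ^ (i + 1)) *
            ((-1) ^ (j - 1 - i) * (Finset.univ.val.map α).esymm (j - 1 - i)) := by
        symm
        refine Finset.sum_bij (fun i _ => (j - 1 - i, i + 1)) ?_ ?_ ?_ ?_
        · intro i hi
          rw [Finset.mem_range] at hi
          rw [Finset.mem_filter, Finset.HasAntidiagonal.mem_antidiagonal]
          exact ⟨by omega, by omega⟩
        · intro i hi i' hi' h
          have h3 := congrArg Prod.snd h
          simp only at h3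
          omega
        · intro x hx
          rw [Finset.mem_filter, Finset.HasAntidiagonal.mem_antidiagonal] at hx
          refine ⟨x.2 - 1, Finset.mem_range.mpr (by omega), ?_⟩
          apply Prod.ext
          · simp only
            omega
          · simp only
            omega
        · intro i hi
          rw [map_mul, map_mul, map_pow, map_neg, map_one, haev]
          have h3 : MvPolynomial.aeval α (MvPolynomial.psum (Fin d) ℤ (i + 1)) =
              ∑ l, α l ^ (i + 1) := by
            rw [MvPolynomial.psum, map_sum]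
            apply Finset.sum_congr rfl
            intro l _
            rw [map_pow, MvPolynomial.aeval_X]
          rw [h3]
          ring
      rw [h2] at h1
      have h4 : ((j : ℕ) : C) * ((-1) ^ j * (Finset.univ.val.map α).esymm j) =
          (-1) ^ j * ((j : C) * (Finset.univ.val.map α).esymm j) := by ring
      rw [h4, h1, ← mul_assoc, ← pow_add]
      have h5 : (-1 : C) ^ (j + (j + 1)) = -1 := by
        have : j + (j + 1) = 2 * j + 1 := by ring
        rw [this, pow_succ, pow_mul]
        simp
      rw [h5, neg_one_mul]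
  · have h1 := Multiset.prod_X_sub_X_eq_sum_esymm (Finset.univ.val.map α)
    rw [Multiset.map_map, Multiset.card_map, Finset.card_val, Finset.card_univ, Fintype.card_fin]
      at h1
    unfold fpoly
    rw [Finset.prod_eq_multiset_prod]
    refine Eq.trans ?_ h1.symm
    apply Finset.sum_congr rfl
    intro j _
    rw [map_mul, map_pow, map_neg, map_one]
    ring

/-- BLOCK N2. Uniqueness. -/
theorem block_N2 {C : Type} [CommRing C] [IsDomain C] [CharZero C] {s E E' : ℕ → C} {d : ℕ}
    {s' : ℕ → C} (h : NRec s E d) (h' : NRec s' E' d) (hs : ∀ r, 1 ≤ r → r ≤ d → s r = s' r) :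
    ∀ j ≤ d, E j = E' j := by
  intro j
  induction j using Nat.strong_induction_on with
  | _ j ih =>
    intro hj
    rcases Nat.eq_zero_or_pos j with h0 | h0
    · subst h0
      rw [h.1, h'.1]
    · have h1 := h.2 j h0 hj
      have h2 := h'.2 j h0 hj
      have h3 : (j : C) * E j = (j : C) * E' j := by
        rw [h1, h2]
        congr 1
        apply Finset.sum_congr rfl
        intro i hi
        rw [Finset.mem_range] at hi
        rw [hs (i + 1) (by omega) (by omega), ih (j - 1 - i) (by omega) (by omega)]
      exact mul_left_cancel₀ (by exact_mod_cast h0.ne') h3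

/-- BLOCK N3. Closeness. -/
theorem block_N3 {C : Type} [NormedField C] [IsUltrametricDist C] {s E s' E' : ℕ → C} {d : ℕ}
    {δ : ℝ} (hδ : 0 ≤ δ) (h : NRec s E d) (h' : NRec s' E' d)
    (hs1 : ∀ r, 1 ≤ r → r ≤ d → ‖s r‖ ≤ 1) (hE1 : ∀ j ≤ d, ‖E' j‖ ≤ 1)
    (hs : ∀ r, 1 ≤ r → r ≤ d → ‖s r - s' r‖ ≤ δ) :
    ∀ j ≤ d, ‖((j.factorial : ℕ) : C)‖ * ‖E j - E' j‖ ≤ δ := by
  intro j
  induction j using Nat.strong_induction_on with
  | _ j ih =>
    intro hj
    rcases Nat.eq_zero_or_pos j with h0 | h0
    · subst h0
      rw [h.1, h'.1, sub_self, norm_zero, mul_zero]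
      exact hδ
    · obtain ⟨j', rfl⟩ : ∃ j', j = j' + 1 := ⟨j - 1, by omega⟩
      have h1 := h.2 (j' + 1) h0 hj
      have h2 := h'.2 (j' + 1) h0 hj
      have h3 : ((j' + 1 : ℕ) : C) * (E (j' + 1) - E' (j' + 1)) =
          ∑ i ∈ Finset.range (j' + 1), -(s (i + 1) * (E (j' - i) - E' (j' - i)) +
            (s (i + 1) - s' (i + 1)) * E' (j' - i)) := by
        rw [mul_sub, h1, h2, ← sub_eq_zero, ← Finset.sum_neg_distrib, ← Finset.sum_neg_distrib,
          ← Finset.sum_sub_distrib, ← Finset.sum_sub_distrib]
        apply Finset.sum_eq_zero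
        intro i _
        have h4 : j' + 1 - 1 - i = j' - i := by omega
        rw [h4]
        ring
      rw [← norm_mul]
      have h4 : (((j' + 1).factorial : ℕ) : C) * (E (j' + 1) - E' (j' + 1)) =
          ∑ i ∈ Finset.range (j' + 1), ((j'.factorial : ℕ) : C) *
            -(s (i + 1) * (E (j' - i) - E' (j' - i)) + (s (i + 1) - s' (i + 1)) * E' (j' - i)) := by
        rw [← Finset.mul_sum, ← h3, Nat.factorial_succ, Nat.cast_mul]
        ring
      rw [h4]
      refine IsUltrametricDist.norm_sum_le_of_forall_le_of_nonneg hδ fun i hi => ?_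
      rw [Finset.mem_range] at hi
      have hfac : ‖((j'.factorial : ℕ) : C)‖ ≤ ‖(((j' - i).factorial : ℕ) : C)‖ := by
        obtain ⟨t, ht⟩ := Nat.factorial_dvd_factorial (Nat.sub_le j' i)
        rw [ht, Nat.cast_mul, norm_mul]
        calc ‖(((j' - i).factorial : ℕ) : C)‖ * ‖((t : ℕ) : C)‖ ≤
              ‖(((j' - i).factorial : ℕ) : C)‖ * 1 :=
              mul_le_mul_of_nonneg_left (IsUltrametricDist.norm_natCast_le_one C t)
                (norm_nonneg _)
          _ = _ := mul_one _
      have hfac1 : ‖((j'.factorial : ℕ) : C)‖ ≤ 1 := IsUltrametricDist.norm_natCast_le_one C _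
      rw [mul_neg, norm_neg, mul_add]
      refine (IsUltrametricDist.norm_add_le_max _ _).trans (max_le ?_ ?_)
      · rw [norm_mul, norm_mul]
        calc ‖((j'.factorial : ℕ) : C)‖ * (‖s (i + 1)‖ * ‖E (j' - i) - E' (j' - i)‖) ≤
              ‖(((j' - i).factorial : ℕ) : C)‖ * (1 * ‖E (j' - i) - E' (j' - i)‖) := by
              gcongr
              exact hs1 (i + 1) (by omega) (by omega)
          _ = ‖(((j' - i).factorial : ℕ) : C)‖ * ‖E (j' - i) - E' (j' - i)‖ := by rw [one_mul]
          _ ≤ δ := ih (j' - i) (by omega) (by omega)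
      · rw [norm_mul, norm_mul]
        calc ‖((j'.factorial : ℕ) : C)‖ * (‖s (i + 1) - s' (i + 1)‖ * ‖E' (j' - i)‖) ≤
              1 * (δ * 1) := by
              gcongr
              · exact hs (i + 1) (by omega) (by omega)
              · exact hE1 (j' - i) (by omega)
          _ = δ := by ring

end Pool.Agent.AP

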